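import Pool.Agent.HadM.Main

/-!
# Hadamard matrices of order `2 ^ t * n` with `t` of size `log log n`

There is a constant `C` such that `2 ^ t * n` is the order of a Hadamard matrix for all `n ≥ 1` and
all `t ≥ C (1 + log log n)` (rounded logarithms in base 2). So every `n ≥ 2` has a multiple
`c n ≤ n (log n) ^ C'` which is the order of a Hadamard matrix, with `c` a power of `2`.

In other words, for `d = 2 ^ t` all the terms `d, 2 d, …, N d` of the progression with difference `d`
are orders of Hadamard matrices as soon as `C (1 + log log N) ≤ t`.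
-/

set_option autoImplicit false

namespace Pool.Agent.Results.MP_9e8db8_co.PolylogMultiplier

open Matrix Pool.Agent.HadAP

theorem result :
    ∃ C : ℕ, ∀ n : ℕ, 0 < n → ∀ t : ℕ, C * (Nat.log 2 (Nat.log 2 n) + 1) ≤ t →
      IsHad (2 ^ t * n) :=
  Pool.Agent.HadM.main_polylog

end Pool.Agent.Results.MP_9e8db8_co.PolylogMultiplier
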